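import Pool.Agent.Lib_helper36.TreeRay3

set_option autoImplicit false

open scoped NNReal
open Pool.Agent.Lib_helper36

/-- For every infinite ultrametric space `X` the two conditions of the problem are equivalent:
(i) `X` is the completion of a totally bounded proper subset generated by a labeled ray;
(ii) `X` is compact and generated by a labeled starlike rayless tree. -/
theorem Pool.Agent.Results.MP_16b74e_gt.StarlikeEquiv.result
    {X : Type*} [MetricSpace X] [IsUltrametricDist X] [Infinite X] :
    (∃ X₀ : Set X, X₀ ≠ Set.univ ∧ TotallyBounded X₀ ∧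
      (∃ (R : SimpleGraph X₀) (l : X₀ → ℝ≥0), IsRay R ∧ Generates R l) ∧
      CompleteSpace X ∧ Dense X₀) ↔
    (CompactSpace X ∧ ∃ (T : SimpleGraph X) (l : X → ℝ≥0),
      IsStarlike T ∧ IsRayless T ∧ Generates T l) :=
  main_equiv
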